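import Pool.Agent.Helper208.Rainbow.LLL

/-!
# MP_b5ddc9 : `R_{F_2}(2, ..., 2, d) ≥ (2 - o(1)) d` for every number `r ≥ 2` of colours

A random set `A` of density about `2^{-n/2}` contains no 2-dimensional subspace and meets every
`d`-dimensional subspace with positive probability, by the asymmetric local lemma, as soon as
`n ≤ 2 d - O(log d)`.
-/

namespace Pool.Agent.Results.MP_b5ddc9_co.LowerBoundTwo

open Finset Filter Pool.Agent.Helper208.Rainbow

/-- `V` is monochromatic in colour `i`: every nonzero vector of `V` has colour `i`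
(the colour of the zero vector plays no role). -/
def Mono {n r : ℕ} (c : (Fin n → ZMod 2) → Fin r) (V : Submodule (ZMod 2) (Fin n → ZMod 2))
    (i : Fin r) : Prop := ∀ v ∈ V, v ≠ 0 → c v = i

/-- The Ramsey property: every colouring of the nonzero vectors with the colours `0, ..., r-1` has
a 2-dimensional subspace monochromatic in one of the first `r - 1` colours or a `d`-dimensional
subspace monochromatic in the last colour. -/
def Ram (r d n : ℕ) : Prop :=
  ∀ c : (Fin n → ZMod 2) → Fin r,
    (∃ i : Fin r, (i : ℕ) + 1 < r ∧ ∃ V : Submodule (ZMod 2) (Fin n → ZMod 2),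
      Module.finrank (ZMod 2) V = 2 ∧ Mono c V i) ∨
    (∃ i : Fin r, (i : ℕ) + 1 = r ∧ ∃ V : Submodule (ZMod 2) (Fin n → ZMod 2),
      Module.finrank (ZMod 2) V = d ∧ Mono c V i)

/-- The Ramsey number `R^{(r)}_{F_2}(2; d)`: the least `n` with the Ramsey property. -/
noncomputable def R (r d : ℕ) : ℕ∞ := sInf {N : ℕ∞ | ∃ n : ℕ, N = (n : ℕ∞) ∧ Ram r d n}

/-! ### Counting -/

lemma card_pi {κ α : Type*} [Fintype κ] [DecidableEq κ] [Fintype α] [DecidableEq α] [Nonempty α]
    (F : Finset κ) (S : Finset α) :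
    ((univ.filter (fun ω : κ → α => ∀ v ∈ F, ω v ∈ S)).card : ℝ) =
      ((S.card : ℝ) / Fintype.card α) ^ F.card * Fintype.card (κ → α) := by
  have h1 : univ.filter (fun ω : κ → α => ∀ v ∈ F, ω v ∈ S) =
      Fintype.piFinset (fun v => if v ∈ F then S else univ) := by
    ext ω
    simp only [mem_filter, mem_univ, true_and, Fintype.mem_piFinset]
    constructor
    · intro h v
      by_cases hv : v ∈ F
      · rw [if_pos hv]; exact h v hv
      · rw [if_neg hv]; exact mem_univ _
    · intro h v hv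
      have := h v
      rwa [if_pos hv] at this
  have hα : (0 : ℝ) < Fintype.card α := by exact_mod_cast Fintype.card_pos
  rw [h1, Fintype.card_piFinset, Fintype.card_pi]
  push_cast
  rw [← Finset.prod_const, ← Finset.prod_sdiff (Finset.subset_univ F),
    ← Finset.prod_sdiff (Finset.subset_univ F) (f := fun _ : κ => (Fintype.card α : ℝ))]
  have h2 : ∏ x ∈ univ \ F, (((if x ∈ F then S else univ).card : ℕ) : ℝ) =
      ∏ x ∈ univ \ F, (Fintype.card α : ℝ) := by
    apply Finset.prod_congr rfl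
    intro x hx
    rw [if_neg (Finset.mem_sdiff.mp hx).2, Finset.card_univ]
  have h3 : ∏ x ∈ F, (((if x ∈ F then S else univ).card : ℕ) : ℝ) = ∏ x ∈ F, (S.card : ℝ) := by
    apply Finset.prod_congr rfl
    intro x hx
    rw [if_pos hx]
  rw [h2, h3]
  have h4 : ∏ x ∈ F, (S.card : ℝ) =
      (∏ x ∈ F, ((S.card : ℝ) / Fintype.card α)) * ∏ x ∈ F, (Fintype.card α : ℝ) := by
    rw [← Finset.prod_mul_distrib]
    apply Finset.prod_congr rfl
    intro x _
    field_simp
  rw [h4]
  ring

/-- The nonzero vectors of a span. -/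
noncomputable def nz {n d : ℕ} (b : Fin d → (Fin n → ZMod 2)) : Finset (Fin n → ZMod 2) := by
  classical
  exact univ.filter (fun v => v ≠ 0 ∧ v ∈ Submodule.span (ZMod 2) (Set.range b))

lemma mem_nz {n d : ℕ} (b : Fin d → (Fin n → ZMod 2)) (v : Fin n → ZMod 2) :
    v ∈ nz b ↔ v ≠ 0 ∧ v ∈ Submodule.span (ZMod 2) (Set.range b) := by
  classical
  unfold nz
  simp only [mem_filter, mem_univ, true_and]

lemma card_nz {n d : ℕ} (b : Fin d → (Fin n → ZMod 2)) (hb : LinearIndependent (ZMod 2) b) :
    (nz b).card + 1 = 2 ^ d := by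
  classical
  have h1 : Module.finrank (ZMod 2) (Submodule.span (ZMod 2) (Set.range b)) = d := by
    rw [finrank_span_eq_card hb, Fintype.card_fin]
  have h2 : Nat.card (Submodule.span (ZMod 2) (Set.range b)) = 2 ^ d := by
    rw [Module.natCard_eq_pow_finrank (K := ZMod 2), h1, Nat.card_zmod]
  have h3 : (insert 0 (nz b) : Finset (Fin n → ZMod 2)).card = 2 ^ d := by
    rw [← h2]
    have : (insert 0 (nz b) : Finset (Fin n → ZMod 2)) =
        univ.filter (fun v => v ∈ Submodule.span (ZMod 2) (Set.range b)) := by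
      ext v
      rw [mem_insert, mem_nz, mem_filter]
      constructor
      · rintro (rfl | h)
        · exact ⟨mem_univ _, Submodule.zero_mem _⟩
        · exact ⟨mem_univ _, h.2⟩
      · rintro ⟨_, h⟩
        by_cases h0 : v = 0
        · exact Or.inl h0
        · exact Or.inr ⟨h0, h⟩
    rw [this]
    rw [Nat.card_eq_fintype_card]
    exact (Fintype.card_subtype _).symm
  rw [card_insert_of_notMem] at h3
  · exact h3
  · rw [mem_nz]; exact fun h => h.1 rfl

/-- The random construction. -/
lemma exists_set (n d a : ℕ) (h1 : 48 * 2 ^ n ≤ (2 ^ a) ^ 2)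
    (h2 : 2 * 2 ^ a * (n * d + a + 3) + 1 ≤ 2 ^ d) :
    ∃ ω : (Fin n → ZMod 2) → Prop,
      (∀ x y, x ≠ 0 → y ≠ 0 → x ≠ y → ω x → ω y → ω (x + y) → False) ∧
      ∀ b : Fin d → (Fin n → ZMod 2), LinearIndependent (ZMod 2) b → ∃ v ∈ nz b, ω v := by
  classical
  set M : ℕ := 2 ^ a with hM
  have hM4 : 4 ≤ M := by
    by_contra hcon
    push Not at hcon
    have : M ^ 2 < 48 * 2 ^ n := by
      have h : 1 ≤ 2 ^ n := Nat.one_le_two_pow
      nlinarith
    omega
  have hM0 : (0 : ℝ) < M := by exact_mod_cast (show 0 < M by omega)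
  have hMr : (4 : ℝ) ≤ M := by exact_mod_cast hM4
  have _inst : NeZero M := ⟨by omega⟩
  let κ := Fin n → ZMod 2
  let V := Fin n → ZMod 2
  let ι := (V × V) ⊕ (Fin d → V)
  let F : ι → Finset κ := fun i => match i with
    | Sum.inl (x, y) => {x, y, x + y}
    | Sum.inr b => nz b
  let A : ι → Finset (κ → Fin M) := fun i => match i with
    | Sum.inl (x, y) => if x ≠ 0 ∧ y ≠ 0 ∧ x ≠ y then
        univ.filter (fun ω : κ → Fin M => ∀ v ∈ ({x, y, x + y} : Finset V), ω v ∈ ({0} : Finset (Fin M)))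
        else ∅
    | Sum.inr b => if LinearIndependent (ZMod 2) b then
        univ.filter (fun ω : κ → Fin M => ∀ v ∈ nz b, ω v ∈ (univ.erase 0 : Finset (Fin M)))
        else ∅
  have hdep : ∀ (S : Finset κ) (T : Finset (Fin M)),
      DepOn (univ.filter (fun ω : κ → Fin M => ∀ v ∈ S, ω v ∈ T)) S := by
    intro S T ω ω' h
    simp only [mem_filter, mem_univ, true_and]
    constructor
    · intro h' v hv; rw [← h v hv]; exact h' v hv
    · intro h' v hv; rw [h v hv]; exact h' v hv
  have hA : ∀ i, DepOn (A i) (F i) := by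
    rintro (⟨x, y⟩ | b)
    · by_cases h : x ≠ 0 ∧ y ≠ 0 ∧ x ≠ y
      · simp only [A, F, if_pos h]; exact hdep _ _
      · simp only [A, F, if_neg h]; intro _ _ _; simp
    · by_cases h : LinearIndependent (ZMod 2) b
      · simp only [A, F, if_pos h]; exact hdep _ _
      · simp only [A, F, if_neg h]; intro _ _ _; simp
  set τ : ℝ := 2 / (M : ℝ) ^ 3 with hτ
  set υ : ℝ := 1 / (8 * M * 2 ^ (n * d)) with hυ
  let x : ι → ℝ := fun i => match i with
    | Sum.inl _ => τ
    | Sum.inr _ => υ
  have hτ0 : 0 ≤ τ := by positivity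
  have hυ0 : 0 ≤ υ := by positivity
  have hcardV : Fintype.card V = 2 ^ n := by
    rw [Fintype.card_pi]; simp [ZMod.card]
  have hx0 : ∀ i, 0 ≤ x i := by rintro (_ | _) <;> assumption
  have hx1 : ∀ i, x i ≤ 1 / 2 := by
    rintro (_ | _)
    · show τ ≤ 1 / 2
      rw [hτ, div_le_div_iff₀ (by positivity) (by norm_num)]
      nlinarith [sq_nonneg ((M : ℝ)), mul_pos hM0 hM0]
    · show υ ≤ 1 / 2
      rw [hυ]
      apply one_div_le_one_div_of_le (by norm_num)
      have : (1 : ℝ) ≤ 2 ^ (n * d) := one_le_pow₀ (by norm_num)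
      nlinarith
  have hΩ : Nonempty (κ → Fin M) := ⟨fun _ => 0⟩
  have hτsum : 3 * (2 : ℝ) ^ n * τ ≤ 1 / (8 * M) := by
    have h1' : 48 * (2 : ℝ) ^ n ≤ (M : ℝ) ^ 2 := by exact_mod_cast h1
    rw [hτ, mul_div_assoc', div_le_div_iff₀ (by positivity) (by positivity)]
    have : 3 * (2 : ℝ) ^ n * 2 * (8 * M) = (48 * 2 ^ n) * M := by ring
    rw [this, one_mul]
    calc (48 * (2 : ℝ) ^ n) * M ≤ (M : ℝ) ^ 2 * M := mul_le_mul_of_nonneg_right h1' hM0.le
      _ = (M : ℝ) ^ 3 := by ring
  have hZ : ∀ k : κ, ∑ j ∈ univ.filter (fun j => k ∈ F j), x j ≤ 1 / (4 * M) := by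
    intro k
    have hsplit : ∑ j ∈ univ.filter (fun j => k ∈ F j), x j =
        ∑ p ∈ (univ : Finset (V × V)).filter (fun p => k ∈ F (Sum.inl p)), τ +
        ∑ b ∈ (univ : Finset (Fin d → V)).filter (fun b => k ∈ F (Sum.inr b)), υ := by
      rw [Finset.sum_filter, Fintype.sum_sum_type, Finset.sum_filter, Finset.sum_filter]
    rw [hsplit, Finset.sum_const, Finset.sum_const, nsmul_eq_mul, nsmul_eq_mul]
    have c1 : ((univ : Finset (V × V)).filter (fun p => k ∈ F (Sum.inl p))).card ≤ 3 * 2 ^ n := by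
      have hsub : (univ : Finset (V × V)).filter (fun p => k ∈ F (Sum.inl p)) ⊆
          (univ.image (fun y : V => (k, y))) ∪ (univ.image (fun x : V => (x, k))) ∪
            (univ.image (fun x : V => (x, x + k))) := by
        rintro ⟨x, y⟩ hp
        simp only [F, mem_filter, mem_univ, true_and, mem_insert, mem_singleton] at hp
        simp only [mem_union, mem_image, mem_univ, true_and]
        rcases hp with rfl | rfl | rfl
        · exact Or.inl (Or.inl ⟨y, rfl⟩)
        · exact Or.inl (Or.inr ⟨x, rfl⟩)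
        · refine Or.inr ⟨x, ?_⟩
          have : x + (x + y) = y := by
            rw [← add_assoc]
            have : x + x = 0 := by
              funext i
              exact CharTwo.add_self_eq_zero (x i)
            rw [this, zero_add]
          rw [this]
      refine le_trans (card_le_card hsub) ?_
      refine le_trans (card_union_le _ _) ?_
      refine le_trans (Nat.add_le_add_right (card_union_le _ _) _) ?_
      have i1 : (univ.image (fun y : V => (k, y))).card ≤ 2 ^ n := by
        rw [← hcardV]; exact card_image_le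
      have i2 : (univ.image (fun x : V => (x, k))).card ≤ 2 ^ n := by
        rw [← hcardV]; exact card_image_le
      have i3 : (univ.image (fun x : V => (x, x + k))).card ≤ 2 ^ n := by
        rw [← hcardV]; exact card_image_le
      omega
    have c2 : ((univ : Finset (Fin d → V)).filter (fun b => k ∈ F (Sum.inr b))).card ≤
        2 ^ (n * d) := by
      refine le_trans (card_le_univ _) ?_
      rw [Fintype.card_pi, Finset.prod_const, card_univ, Fintype.card_fin, hcardV, ← pow_mul]
    have c1' : ((((univ : Finset (V × V)).filter (fun p => k ∈ F (Sum.inl p))).card : ℕ) : ℝ) ≤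
        3 * 2 ^ n := by exact_mod_cast c1
    have c2' : ((((univ : Finset (Fin d → V)).filter (fun b => k ∈ F (Sum.inr b))).card : ℕ) : ℝ) ≤
        2 ^ (n * d) := by exact_mod_cast c2
    have e2 : (2 : ℝ) ^ (n * d) * υ = 1 / (8 * M) := by
      rw [hυ]; field_simp
    have e3 : (1 : ℝ) / (4 * M) = 1 / (8 * M) + 1 / (8 * M) := by field_simp; norm_num
    rw [e3]
    apply add_le_add
    · exact le_trans (mul_le_mul_of_nonneg_right c1' hτ0) hτsum
    · rw [← e2]; exact mul_le_mul_of_nonneg_right c2' hυ0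
  have hΩ0 : (0 : ℝ) ≤ Fintype.card (κ → Fin M) := Nat.cast_nonneg _
  have hmain : ∀ i, ((A i).card : ℝ) ≤
      (x i * Real.exp (-(2 * ((F i).card * (1 / (4 * M)))))) * Fintype.card (κ → Fin M) := by
    rintro (⟨u, w⟩ | b)
    · by_cases h : u ≠ 0 ∧ w ≠ 0 ∧ u ≠ w
      · simp only [A, F, x, if_pos h]
        rw [card_pi, card_singleton, Fintype.card_fin]
        apply mul_le_mul_of_nonneg_right _ hΩ0
        have hc3 : ({u, w, u + w} : Finset V).card = 3 := by
          rw [card_eq_three]
          refine ⟨u, w, u + w, h.2.2, ?_, ?_, rfl⟩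
          · intro he; exact h.2.1 (left_eq_add.mp he)
          · intro he; exact h.1 (right_eq_add.mp he)
        rw [hc3]
        have hexp : (1 : ℝ) / 2 ≤ Real.exp (-(2 * (((3 : ℕ) : ℝ) * (1 / (4 * M))))) := by
          have h1 := Real.add_one_le_exp (-(2 * (((3 : ℕ) : ℝ) * (1 / (4 * (M : ℝ))))))
          have h2 : 2 * (((3 : ℕ) : ℝ) * (1 / (4 * (M : ℝ)))) ≤ 1 / 2 := by
            push_cast
            rw [show 2 * (3 * (1 / (4 * (M : ℝ)))) = 6 / (4 * M) by ring,
              div_le_div_iff₀ (by positivity) (by norm_num)]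
            linarith
          linarith
        calc ((1 : ℕ) / (M : ℝ)) ^ 3 = τ * (1 / 2) := by rw [hτ]; push_cast; field_simp
          _ ≤ τ * _ := mul_le_mul_of_nonneg_left hexp hτ0
      · simp only [A, if_neg h, card_empty, Nat.cast_zero]
        exact mul_nonneg (mul_nonneg hτ0 (Real.exp_pos _).le) hΩ0
    · by_cases h : LinearIndependent (ZMod 2) b
      · simp only [A, F, x, if_pos h]
        rw [card_pi, card_erase_of_mem (mem_univ _), card_univ, Fintype.card_fin]
        apply mul_le_mul_of_nonneg_right _ hΩ0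
        have hcard := card_nz b h
        set m := (nz b).card with hm
        have hmM : 2 * (M : ℝ) * ((n * d + a + 3 : ℕ) : ℝ) ≤ m := by
          have : 2 * M * (n * d + a + 3) ≤ m := by omega
          exact_mod_cast this
        have hbase : ((M - 1 : ℕ) : ℝ) / M ≤ Real.exp (-(1 / M)) := by
          have h1 := Real.add_one_le_exp (-(1 / (M : ℝ)))
          have h2 : ((M - 1 : ℕ) : ℝ) / M = -(1 / (M : ℝ)) + 1 := by
            rw [Nat.cast_sub (by omega)]
            field_simp
            push_cast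
            ring
          rw [h2]; exact h1
        have hpow : (((M - 1 : ℕ) : ℝ) / M) ^ m ≤ Real.exp (-(m / M)) := by
          calc (((M - 1 : ℕ) : ℝ) / M) ^ m ≤ (Real.exp (-(1 / M))) ^ m :=
                pow_le_pow_left₀ (by positivity) hbase m
            _ = Real.exp (-(m / M)) := by
                rw [← Real.exp_nat_mul]
                congr 1
                ring
        have hυle : Real.exp (-(m / (2 * M))) ≤ υ := by
          have h3 : ((n * d + a + 3 : ℕ) : ℝ) ≤ m / (2 * M) := by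
            rw [le_div_iff₀ (by positivity)]
            linarith
          have h4 : Real.exp (-(m / (2 * M))) ≤ Real.exp (-((n * d + a + 3 : ℕ) : ℝ)) :=
            Real.exp_le_exp.mpr (by linarith)
          have h5 : Real.exp (-((n * d + a + 3 : ℕ) : ℝ)) ≤ (1 / 2) ^ (n * d + a + 3) := by
            have h6 : Real.exp (-((n * d + a + 3 : ℕ) : ℝ)) =
                (Real.exp (-1)) ^ (n * d + a + 3) := by
              rw [← Real.exp_nat_mul]; congr 1; ring
            rw [h6]
            apply pow_le_pow_left₀ (Real.exp_pos _).le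
            rw [Real.exp_neg, one_div]
            apply inv_anti₀ (by norm_num)
            have := Real.add_one_le_exp (1 : ℝ)
            linarith
          have h7 : ((1 : ℝ) / 2) ^ (n * d + a + 3) = υ := by
            rw [hυ, hM]
            push_cast
            rw [one_div_pow, pow_add, pow_add]
            congr 1
            ring
          linarith
        calc (((M - 1 : ℕ) : ℝ) / M) ^ m ≤ Real.exp (-(m / M)) := hpow
          _ = Real.exp (-(m / (2 * M))) * Real.exp (-(2 * ((m : ℝ) * (1 / (4 * M))))) := by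
              rw [← Real.exp_add]
              congr 1
              field_simp
              ring
          _ ≤ υ * Real.exp (-(2 * ((m : ℝ) * (1 / (4 * M))))) :=
              mul_le_mul_of_nonneg_right hυle (Real.exp_pos _).le
      · simp only [A, if_neg h, card_empty, Nat.cast_zero]
        exact mul_nonneg (mul_nonneg hυ0 (Real.exp_pos _).le) hΩ0
  obtain ⟨ω, hω⟩ := lll_exp A F hA x hx0 hx1 (1 / (4 * M)) hZ hmain
  refine ⟨fun v => ω v = 0, ?_, ?_⟩
  · intro u w hu hw huw h1 h2 h3
    apply hω (Sum.inl (u, w))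
    simp only [A, if_pos (⟨hu, hw, huw⟩ : u ≠ 0 ∧ w ≠ 0 ∧ u ≠ w), mem_filter, mem_univ, true_and,
      mem_insert, mem_singleton, forall_eq_or_imp, forall_eq]
    exact ⟨h1, h2, h3⟩
  · intro b hb
    by_contra hcon
    push Not at hcon
    apply hω (Sum.inr b)
    simp only [A, if_pos hb, mem_filter, mem_univ, true_and, mem_erase, and_true]
    exact hcon

/-- No Ramsey property in dimension `n`. -/
lemma not_Ram (r n d a : ℕ) (hr : 2 ≤ r) (h1 : 48 * 2 ^ n ≤ (2 ^ a) ^ 2)
    (h2 : 2 * 2 ^ a * (n * d + a + 3) + 1 ≤ 2 ^ d) : ¬ Ram r d n := by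
  classical
  intro hRam
  obtain ⟨ω, hω1, hω2⟩ := exists_set n d a h1 h2
  let c : (Fin n → ZMod 2) → Fin r := fun v =>
    if ω v then ⟨0, by omega⟩ else ⟨r - 1, by omega⟩
  rcases hRam c with ⟨i, hi, V, hV, hmono⟩ | ⟨i, hi, V, hV, hmono⟩
  · have hone : ∀ v ∈ V, v ≠ 0 → ω v := by
      intro v hv hv0
      by_contra hcon
      have h := hmono v hv hv0
      simp only [c, if_neg hcon] at h
      rw [← h] at hi
      simp only at hi
      omega
    let b := Module.finBasisOfFinrankEq (ZMod 2) V hV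
    have hne : (b 0 : V) ≠ b 1 := b.injective.ne (by decide)
    have hsum : ((b 0 : V) : Fin n → ZMod 2) + (b 1 : V) ≠ 0 := by
      intro h
      have hself : ((b 1 : V) : Fin n → ZMod 2) + (b 1 : V) = 0 := by
        funext j
        exact CharTwo.add_self_eq_zero _
      have : ((b 0 : V) : Fin n → ZMod 2) = (b 1 : V) := by
        have := h.trans hself.symm
        exact add_right_cancel this
      exact hne (Subtype.ext this)
    refine hω1 (b 0 : V) (b 1 : V) ?_ ?_ ?_ (hone _ (b 0).2 ?_) (hone _ (b 1).2 ?_)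
      (hone _ (V.add_mem (b 0).2 (b 1).2) hsum)
    · intro h; exact b.ne_zero 0 (Subtype.ext h)
    · intro h; exact b.ne_zero 1 (Subtype.ext h)
    · intro h; exact hne (Subtype.ext h)
    · intro h; exact b.ne_zero 0 (Subtype.ext h)
    · intro h; exact b.ne_zero 1 (Subtype.ext h)
  · let b := Module.finBasisOfFinrankEq (ZMod 2) V hV
    have hli : LinearIndependent (ZMod 2) (fun j => ((b j : V) : Fin n → ZMod 2)) :=
      b.linearIndependent.map' V.subtype (by simp)
    obtain ⟨v, hv, hωv⟩ := hω2 _ hli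
    rw [mem_nz] at hv
    have hvV : v ∈ V := by
      have : Submodule.span (ZMod 2) (Set.range (fun j => ((b j : V) : Fin n → ZMod 2))) ≤ V := by
        rw [Submodule.span_le]
        rintro _ ⟨j, rfl⟩
        exact (b j).2
      exact this hv.2
    have h := hmono v hvV hv.1
    simp only [c, if_pos hωv] at h
    rw [← h] at hi
    simp only at hi
    omega

/-! ### Asymptotics -/

lemma eventually_bound (δ : ℝ) (hδ : 0 < δ) :
    ∀ᶠ d : ℕ in atTop, (4 * (d : ℝ) ^ 2 + 2 * d + 15) * 16 ≤ ((2 : ℝ) ^ δ) ^ d := by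
  have hr : 1 < (2 : ℝ) ^ δ := Real.one_lt_rpow (by norm_num) hδ
  have h := (isLittleO_pow_const_const_pow_of_one_lt (R := ℝ) 2 hr).bound
    (show (0 : ℝ) < 1 / 336 by norm_num)
  filter_upwards [h, eventually_ge_atTop 1] with d hd hd1
  have hd1' : (1 : ℝ) ≤ d := by exact_mod_cast hd1
  rw [Real.norm_of_nonneg (by positivity), Real.norm_of_nonneg (by positivity)] at hd
  nlinarith

/-- **MP_b5ddc9.** For every number `r ≥ 2` of colours, `R^{(r)}_{F_2}(2; d) ≥ (2 - o(1)) d`. -/
theorem result : ∀ r : ℕ, 2 ≤ r → ∀ ε : ℝ, 0 < ε →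
    ∀ᶠ d : ℕ in atTop, ENNReal.ofReal ((2 - ε) * d) ≤ ((R r d : ℕ∞) : ENNReal) := by
  intro r hr ε₀ hε₀
  set ε := min ε₀ 1 with hε
  have hεpos : 0 < ε := lt_min hε₀ one_pos
  have hε1 : ε ≤ 1 := min_le_right _ _
  have hεle : ε ≤ ε₀ := min_le_left _ _
  filter_upwards [eventually_bound (ε / 2) (by positivity)] with d hd
  have hd0 : (0 : ℝ) ≤ d := Nat.cast_nonneg d
  refine le_trans (b := ENNReal.ofReal ((2 - ε) * d)) (ENNReal.ofReal_le_ofReal (by nlinarith)) ?_
  -- the main claim
  have key : ∀ n : ℕ, Ram r d n → (2 - ε) * (d : ℝ) ≤ n := by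
    intro n hRam
    by_contra hcon
    push Not at hcon
    set a : ℕ := ⌊(1 - ε / 2) * (d : ℝ)⌋₊ + 4 with ha
    have hnn : 0 ≤ (1 - ε / 2) * (d : ℝ) := by
      apply mul_nonneg _ hd0
      linarith
    have ha1 : (1 - ε / 2) * (d : ℝ) + 3 < a := by
      rw [ha]; push_cast
      have := Nat.lt_floor_add_one ((1 - ε / 2) * (d : ℝ))
      linarith
    have ha2 : (a : ℝ) ≤ (1 - ε / 2) * (d : ℝ) + 4 := by
      rw [ha]; push_cast
      have := Nat.floor_le hnn
      linarith
    apply not_Ram r n d a hr _ _ hRam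
    · -- first condition
      have h1 : n + 6 ≤ 2 * a := by
        have : (n : ℝ) + 6 ≤ 2 * a := by nlinarith
        exact_mod_cast this
      calc 48 * 2 ^ n ≤ 64 * 2 ^ n := Nat.mul_le_mul_right _ (by norm_num)
        _ = 2 ^ (n + 6) := by rw [pow_add]; ring
        _ ≤ 2 ^ (2 * a) := Nat.pow_le_pow_right (by norm_num) h1
        _ = (2 ^ a) ^ 2 := by rw [← pow_mul, mul_comm]
    · -- second condition
      have hn2 : (n : ℝ) ≤ 2 * d := by nlinarith
      have hreal : 2 * (2 : ℝ) ^ a * (n * d + a + 3) + 1 ≤ 2 ^ d := by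
        have e1 : (n : ℝ) * d + a + 3 ≤ 2 * (d : ℝ) ^ 2 + d + 7 := by nlinarith
        have e2 : 2 * (2 : ℝ) ^ a * (n * d + a + 3) + 1 ≤
            2 ^ a * (4 * (d : ℝ) ^ 2 + 2 * d + 15) := by
          have h2a : (1 : ℝ) ≤ 2 ^ a := one_le_pow₀ (by norm_num)
          nlinarith
        have e3 : (2 : ℝ) ^ a * 1 ≤ 2 ^ ((1 - ε / 2) * (d : ℝ) + 4) := by
          rw [mul_one, ← Real.rpow_natCast 2 a]
          exact Real.rpow_le_rpow_of_exponent_le (by norm_num) ha2
        have e4 : ((2 : ℝ) ^ (ε / 2)) ^ d = (2 : ℝ) ^ (ε / 2 * d) := by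
          rw [← Real.rpow_natCast, ← Real.rpow_mul (by norm_num)]
        have e5 : (2 : ℝ) ^ ((1 - ε / 2) * (d : ℝ) + 4) * 2 ^ (ε / 2 * (d : ℝ)) = 16 * 2 ^ d := by
          rw [← Real.rpow_add (by norm_num)]
          rw [show (1 - ε / 2) * (d : ℝ) + 4 + ε / 2 * d = (4 : ℕ) + (d : ℕ) by push_cast; ring,
            Real.rpow_add (by norm_num), Real.rpow_natCast, Real.rpow_natCast]
          norm_num
        rw [e4] at hd
        have e6 : (0 : ℝ) < 2 ^ a := by positivity
        have e7 : 16 * ((2 : ℝ) ^ a * (4 * (d : ℝ) ^ 2 + 2 * d + 15)) ≤ 16 * 2 ^ d := by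
          calc 16 * ((2 : ℝ) ^ a * (4 * (d : ℝ) ^ 2 + 2 * d + 15))
              = (2 : ℝ) ^ a * ((4 * (d : ℝ) ^ 2 + 2 * d + 15) * 16) := by ring
            _ ≤ 2 ^ a * 2 ^ (ε / 2 * (d : ℝ)) := mul_le_mul_of_nonneg_left hd e6.le
            _ ≤ 2 ^ ((1 - ε / 2) * (d : ℝ) + 4) * 2 ^ (ε / 2 * (d : ℝ)) := by
                apply mul_le_mul_of_nonneg_right _ (by positivity)
                rw [mul_one] at e3; exact e3
            _ = 16 * 2 ^ d := e5
        linarith
      exact_mod_cast hreal
  -- conclusion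
  rcases eq_or_ne (R r d) ⊤ with htop | htop
  · rw [htop]; simp
  · have hmem : ∃ n : ℕ, R r d = (n : ℕ∞) ∧ Ram r d n := by
      have hne : {N : ℕ∞ | ∃ n : ℕ, N = (n : ℕ∞) ∧ Ram r d n}.Nonempty := by
        by_contra hempty
        rw [Set.not_nonempty_iff_eq_empty] at hempty
        apply htop
        unfold R
        rw [hempty, sInf_empty]
      exact csInf_mem hne
    obtain ⟨n, hn, hRam⟩ := hmem
    rw [hn]
    have := key n hRam
    rw [ENat.toENNReal_coe]
    rw [← ENNReal.ofReal_natCast]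
    exact ENNReal.ofReal_le_ofReal this

end Pool.Agent.Results.MP_b5ddc9_co.LowerBoundTwo
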